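import Pool.Agent.Y922.KB.Stm

/-!
Project KB, part BLA: smallness from a zero.
-/

set_option autoImplicit false

namespace Pool.Agent.Y899.KB

open Complex Metric MeasureTheory Set Pool.Agent.Y922.KB
open scoped Real ComplexConjugate Topology

theorem ident (s : ℝ) (u b : ℂ) :
    s ^ 2 * ‖u - b‖ ^ 2 - ‖((s ^ 2 : ℝ) : ℂ) - conj b * u‖ ^ 2 =
      (‖u‖ ^ 2 - s ^ 2) * (s ^ 2 - ‖b‖ ^ 2) := by
  rw [← Complex.normSq_eq_norm_sq, ← Complex.normSq_eq_norm_sq, ← Complex.normSq_eq_norm_sq,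
    ← Complex.normSq_eq_norm_sq, Complex.normSq_apply, Complex.normSq_apply, Complex.normSq_apply,
    Complex.normSq_apply]
  simp only [Complex.sub_re, Complex.sub_im, Complex.mul_re, Complex.mul_im, Complex.conj_re,
    Complex.conj_im, Complex.ofReal_re, Complex.ofReal_im]
  ring

/-- the function without the zero -/
noncomputable def GG (g : ℂ → ℂ) (b : ℂ) (s : ℝ) (z : ℂ) : ℂ :=
  dslope g b z * ((((s ^ 2 : ℝ) : ℂ) - conj b * z) / (s : ℂ))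

theorem norm_GG (g : ℂ → ℂ) (b : ℂ) {s : ℝ} (hs : 0 < s) (z : ℂ) :
    s ^ 2 * ‖GG g b s z‖ ^ 2 = ‖dslope g b z‖ ^ 2 * ‖((s ^ 2 : ℝ) : ℂ) - conj b * z‖ ^ 2 := by
  unfold GG
  rw [norm_mul, norm_div, Complex.norm_real, Real.norm_of_nonneg hs.le]
  field_simp

theorem norm_g (g : ℂ → ℂ) {b : ℂ} (hb : g b = 0) (z : ℂ) :
    ‖g z‖ ^ 2 = ‖dslope g b z‖ ^ 2 * ‖z - b‖ ^ 2 := by
  have h := sub_smul_dslope g b z
  rw [hb, sub_zero, smul_eq_mul] at h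
  rw [← h, norm_mul, mul_pow, mul_comm]

theorem diff_GG {g : ℂ → ℂ} {b : ℂ} (s : ℝ) (hg : DifferentiableOn ℂ g (ball 0 1))
    (hb : ‖b‖ < 1) : DifferentiableOn ℂ (GG g b s) (ball 0 1) := by
  have h1 : DifferentiableOn ℂ (dslope g b) (ball 0 1) :=
    (Complex.differentiableOn_dslope (isOpen_ball.mem_nhds (by simpa using hb))).2 hg
  have h2 : DifferentiableOn ℂ (fun z : ℂ => (((s ^ 2 : ℝ) : ℂ) - conj b * z) / (s : ℂ))
      (ball 0 1) := by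
    apply Differentiable.differentiableOn
    fun_prop
  exact h1.mul h2

theorem le_of_sq {x y : ℝ} (hy : 0 ≤ y) (h : x ^ 2 ≤ y ^ 2) : x ≤ y :=
  le_of_sq_le_sq h hy

theorem t_BLA : S_BLA := by
  intro hmean ε p g b hε hε2 hp hg hgb hb z hz
  have hbn : ‖b‖ < 1 := by linarith
  set s : ℝ := 1 - ε / 4 with hs
  have hs0 : 0 < s := by rw [hs]; linarith
  have hs2 : 0 < s ^ 2 := by positivity
  have hGd : DifferentiableOn ℂ (GG g b s) (ball 0 1) := diff_GG s hg hbn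
  have hb0 : 0 ≤ ‖b‖ := norm_nonneg b
  have hsb : ε ≤ s ^ 2 - ‖b‖ ^ 2 := by
    have : ‖b‖ ^ 2 ≤ (1 - ε) ^ 2 := pow_le_pow_left₀ hb0 hb 2
    rw [hs]
    nlinarith
  -- comparison on the annulus
  have hGg : ∀ u ∈ Rp ε, ‖GG g b s u‖ ≤ ‖g u‖ := by
    intro u hu
    apply le_of_sq (norm_nonneg _)
    have h1 := norm_GG g b hs0 u
    have h2 := norm_g g hgb u
    have h3 := ident s u b
    have h4 : 0 ≤ (‖u‖ ^ 2 - s ^ 2) * (s ^ 2 - ‖b‖ ^ 2) := by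
      apply mul_nonneg _ (by linarith)
      have : s ^ 2 ≤ ‖u‖ ^ 2 := pow_le_pow_left₀ hs0.le hu.1 2
      linarith
    have h5 : s ^ 2 * ‖GG g b s u‖ ^ 2 ≤ s ^ 2 * ‖g u‖ ^ 2 := by
      rw [h1, h2]
      have h6 : ‖((s ^ 2 : ℝ) : ℂ) - conj b * u‖ ^ 2 ≤ s ^ 2 * ‖u - b‖ ^ 2 := by linarith
      have h7 := mul_le_mul_of_nonneg_left h6 (sq_nonneg ‖dslope g b u‖)
      linarith
    exact le_of_mul_le_mul_left h5 hs2
  -- comparison at the point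
  have hgz : ‖g z‖ ≤ Real.exp (-(ε ^ 2 / 60)) * ‖GG g b s z‖ := by
    apply le_of_sq (by positivity)
    have h1 := norm_GG g b hs0 z
    have h2 := norm_g g hgb z
    have h3 := ident s z b
    have hz0 : 0 ≤ ‖z‖ := norm_nonneg z
    have hsz : 13 / 32 * ε ≤ s ^ 2 - ‖z‖ ^ 2 := by
      have : ‖z‖ ^ 2 ≤ (1 - ε / 2) ^ 2 := pow_le_pow_left₀ hz0 hz 2
      rw [hs]
      nlinarith
    have h4 : 13 / 32 * ε * ε ≤ (s ^ 2 - ‖z‖ ^ 2) * (s ^ 2 - ‖b‖ ^ 2) :=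
      mul_le_mul hsz hsb hε.le (by linarith)
    have hK : ‖((s ^ 2 : ℝ) : ℂ) - conj b * z‖ ^ 2 ≤ 4 := by
      have h5 : ‖((s ^ 2 : ℝ) : ℂ) - conj b * z‖ ≤ 2 := by
        refine (norm_sub_le _ _).trans ?_
        rw [norm_mul, Complex.norm_conj, Complex.norm_real, Real.norm_of_nonneg hs2.le]
        have h6 : s ^ 2 ≤ 1 := by
          rw [hs]
          nlinarith
        have h7 : ‖b‖ * ‖z‖ ≤ 1 * 1 := mul_le_mul hbn.le (by linarith) hz0 zero_le_one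
        linarith
      have := pow_le_pow_left₀ (norm_nonneg _) h5 2
      linarith
    have hK0 : 0 ≤ ‖((s ^ 2 : ℝ) : ℂ) - conj b * z‖ ^ 2 := by positivity
    have h5 : s ^ 2 * ‖z - b‖ ^ 2 ≤
        (1 - ε ^ 2 / 30) * ‖((s ^ 2 : ℝ) : ℂ) - conj b * z‖ ^ 2 := by
      have h6 : ε ^ 2 / 30 * ‖((s ^ 2 : ℝ) : ℂ) - conj b * z‖ ^ 2 ≤ ε ^ 2 / 30 * 4 :=
        mul_le_mul_of_nonneg_left hK (by positivity)
      nlinarith
    have h6 : 1 - ε ^ 2 / 30 ≤ Real.exp (-(ε ^ 2 / 60)) ^ 2 := by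
      rw [← Real.exp_nat_mul]
      have := Real.add_one_le_exp (((2 : ℕ) : ℝ) * -(ε ^ 2 / 60))
      push_cast at this ⊢
      linarith
    have h7 : s ^ 2 * ‖g z‖ ^ 2 ≤ s ^ 2 * (Real.exp (-(ε ^ 2 / 60)) * ‖GG g b s z‖) ^ 2 := by
      have e1 : s ^ 2 * ‖g z‖ ^ 2 = ‖dslope g b z‖ ^ 2 * (s ^ 2 * ‖z - b‖ ^ 2) := by
        rw [h2]; ring
      have e2 : s ^ 2 * (Real.exp (-(ε ^ 2 / 60)) * ‖GG g b s z‖) ^ 2 =
          Real.exp (-(ε ^ 2 / 60)) ^ 2 * (s ^ 2 * ‖GG g b s z‖ ^ 2) := by ring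
      rw [e1, e2, h1]
      calc ‖dslope g b z‖ ^ 2 * (s ^ 2 * ‖z - b‖ ^ 2) ≤ ‖dslope g b z‖ ^ 2 *
            ((1 - ε ^ 2 / 30) * ‖((s ^ 2 : ℝ) : ℂ) - conj b * z‖ ^ 2) :=
            mul_le_mul_of_nonneg_left h5 (by positivity)
        _ = (1 - ε ^ 2 / 30) * (‖dslope g b z‖ ^ 2 *
            ‖((s ^ 2 : ℝ) : ℂ) - conj b * z‖ ^ 2) := by ring
        _ ≤ _ := mul_le_mul_of_nonneg_right h6 (by positivity)
    exact le_of_mul_le_mul_left h7 hs2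
  -- the maximum principle
  obtain ⟨ζ, hζ, hmax⟩ : ∃ ζ : ℂ, ‖ζ‖ = 1 - 3 * ε / 16 ∧ ‖GG g b s z‖ ≤ ‖GG g b s ζ‖ := by
    have hr : 0 < 1 - 3 * ε / 16 := by linarith
    have hdc : DiffContOnCl ℂ (GG g b s) (ball 0 (1 - 3 * ε / 16)) := by
      apply DifferentiableOn.diffContOnCl
      rw [closure_ball _ hr.ne']
      exact hGd.mono (closedBall_subset_ball (by linarith))
    obtain ⟨ζ, h1, h2⟩ := Complex.exists_mem_frontier_isMaxOn_norm (isBounded_ball)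
      ⟨0, mem_ball_self hr⟩ hdc
    rw [frontier_ball _ hr.ne', mem_sphere_zero_iff_norm] at h1
    refine ⟨ζ, h1, ?_⟩
    have h3 : z ∈ closure (ball (0 : ℂ) (1 - 3 * ε / 16)) := by
      rw [closure_ball _ hr.ne', mem_closedBall_zero_iff]
      linarith
    exact h2 h3
  -- the mean value property
  have hsub : closedBall ζ (ε / 16) ⊆ Rp ε := by
    intro u hu
    rw [mem_closedBall, dist_eq_norm] at hu
    have h1 : ‖u‖ ≤ ‖ζ‖ + ‖u - ζ‖ := by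
      have := norm_add_le ζ (u - ζ)
      rwa [add_sub_cancel] at this
    have h2 : ‖ζ‖ ≤ ‖u‖ + ‖u - ζ‖ := by
      have := norm_sub_le u (u - ζ)
      rwa [sub_sub_cancel] at this
    constructor <;> linarith
  have hRp : Rp ε ⊆ ball 0 1 := by
    intro u hu
    rw [mem_ball_zero_iff]
    linarith [hu.2]
  have hmean' := hmean (GG g b s) p (ε / 16) ζ hp (by linarith) hGd (hsub.trans hRp)
  have hcpt : IsCompact (Rp ε) := by
    apply Metric.isCompact_of_isClosed_isBounded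
    · exact (isClosed_le continuous_const continuous_norm).inter
        (isClosed_le continuous_norm continuous_const)
    · exact isBounded_ball.subset hRp
  have hp0 : 0 ≤ p := by linarith
  have hint : ∀ h : ℂ → ℂ, DifferentiableOn ℂ h (ball 0 1) →
      IntegrableOn (fun u => ‖h u‖ ^ p) (Rp ε) := by
    intro h hh
    apply ContinuousOn.integrableOn_compact hcpt
    exact ((hh.continuousOn.mono hRp).norm).rpow_const (fun _ _ => Or.inr hp0)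
  have hI1 : ∫ u in closedBall ζ (ε / 16), ‖GG g b s u‖ ^ p ≤ ∫ u in Rp ε, ‖GG g b s u‖ ^ p := by
    apply setIntegral_mono_set (hint _ hGd)
    · exact Filter.Eventually.of_forall fun u => Real.rpow_nonneg (norm_nonneg _) _
    · exact hsub.eventuallyLE
  have hI2 : ∫ u in Rp ε, ‖GG g b s u‖ ^ p ≤ ∫ u in Rp ε, ‖g u‖ ^ p :=
    setIntegral_mono_on (hint _ hGd) (hint _ hg) hcpt.isClosed.measurableSet
      fun u hu => Real.rpow_le_rpow (norm_nonneg _) (hGg u hu) hp0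
  have hIn : 0 ≤ ∫ u in Rp ε, ‖g u‖ ^ p :=
    setIntegral_nonneg hcpt.isClosed.measurableSet fun u _ => Real.rpow_nonneg (norm_nonneg _) _
  set J : ℝ := ∫ u in Rp ε, ‖g u‖ ^ p with hJ
  have hζp : ‖GG g b s ζ‖ ^ p ≤ 256 / ε ^ 2 * J := by
    have h1 : π * (ε / 16) ^ 2 * ‖GG g b s ζ‖ ^ p ≤ J := hmean'.trans (hI1.trans hI2)
    have h2 : 0 ≤ ‖GG g b s ζ‖ ^ p := Real.rpow_nonneg (norm_nonneg _) _
    have h3 : 1 ≤ π := by linarith [Real.pi_gt_three]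
    have h4 : (ε / 16) ^ 2 * ‖GG g b s ζ‖ ^ p ≤ J := by
      have h5 : 0 ≤ (ε / 16) ^ 2 * ‖GG g b s ζ‖ ^ p := by positivity
      nlinarith
    have h6 : 256 / ε ^ 2 * ((ε / 16) ^ 2 * ‖GG g b s ζ‖ ^ p) = ‖GG g b s ζ‖ ^ p := by
      field_simp
      ring
    rw [← h6]
    exact mul_le_mul_of_nonneg_left h4 (by positivity)
  have hexp : Real.exp (-(ε ^ 2 / 60)) ^ p = Real.exp (-(p * ε ^ 2 / 60)) := by
    rw [← Real.exp_mul]
    congr 1
    ring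
  calc ‖g z‖ ^ p ≤ (Real.exp (-(ε ^ 2 / 60)) * ‖GG g b s z‖) ^ p :=
        Real.rpow_le_rpow (norm_nonneg _) hgz hp0
    _ = Real.exp (-(p * ε ^ 2 / 60)) * ‖GG g b s z‖ ^ p := by
        rw [Real.mul_rpow (Real.exp_pos _).le (norm_nonneg _), hexp]
    _ ≤ Real.exp (-(p * ε ^ 2 / 60)) * (256 / ε ^ 2 * J) := by
        apply mul_le_mul_of_nonneg_left _ (Real.exp_pos _).le
        exact (Real.rpow_le_rpow (norm_nonneg _) hmax hp0).trans hζp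
    _ = Real.exp (-(p * ε ^ 2 / 60)) * (256 / ε ^ 2) * J := by ring

end Pool.Agent.Y899.KB
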